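import Pool.Agent.Q22.DTC

/-! A countably infinite group with finite conjugacy classes that is DTC(1). -/

namespace Pool.Agent.Results.MP_1a7a11_al.DihedralDTC

open Q22.DTC

/-- There is a countably infinite group `G` with finite conjugacy classes and a single ultrafilter
`v` on `G` such that `u □ v ≠ u ◇ v` for every nonprincipal ultrafilter `u`; the least cardinality
of a DTC set for `G` is one. -/
theorem result :
    ∃ (G : Type) (_ : Group G), Countable G ∧ Infinite G ∧
      (∀ g : G, (Set.range fun h : G => h * g * h⁻¹).Finite) ∧
      (∃ v : Ultrafilter G, ∀ u : Ultrafilter G, (∀ x : G, u ≠ pure x) → box u v ≠ dia u v) ∧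
      dtcNumber G = 1 :=
  ⟨G, inferInstance, inferInstance, inferInstance, fc, ⟨vv, box_ne_dia⟩, dtc_one⟩

end Pool.Agent.Results.MP_1a7a11_al.DihedralDTC
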